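import Mathlib

set_option autoImplicit false

namespace Pool.Agent.LibCollatzPairs

/-- The Collatz function. -/
def C (x : ℕ) : ℕ := if x % 2 = 1 then 3 * x + 1 else x / 2

/-- The trajectories of `n` and `m` meet after the same number of steps, none of them
having reached `1` before. -/
def Meets (n m : ℕ) : Prop := ∃ j, C^[j] n = C^[j] m ∧ ∀ i < j, C^[i] n ≠ 1 ∧ C^[i] m ≠ 1

/-- `h(m) = k` -/
def HeightIs (m k : ℕ) : Prop := C^[k] m = 1 ∧ ∀ j < k, C^[j] m ≠ 1

/-- `h(m)` is finite -/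
def FiniteHeight (m : ℕ) : Prop := ∃ k, HeightIs m k

/-- `n` has finite height, equal to the height of `n - 1` (for `n ≥ 2`) or of `n + 1` -/
def Paired (n : ℕ) : Prop :=
  ∃ k, HeightIs n k ∧ ((2 ≤ n ∧ HeightIs (n - 1) k) ∨ HeightIs (n + 1) k)

end Pool.Agent.LibCollatzPairs
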