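import Pool.Agent.LibCollatzPairs.Defs

set_option autoImplicit false

namespace Pool.Agent.LibCollatzPairs

/-- one step of the chain of pairs `(w, 3^h w + c)`; the Boolean says whether `w` is odd -/
def nx : ℕ × ℤ → Bool → ℕ × ℤ
  | (0, c), b => if Even c then (0, if b then 3 * c / 2 else c / 2)
      else (1, if b then (1 - 3 * c) / 2 else (3 * c + 1) / 2)
  | (h + 1, c), b => if Even c then (h + 1, if b then (3 * c + 1 - 3 ^ (h + 1)) / 2 else c / 2)
      else if b then (h, (c - 3 ^ h) / 2) else (h + 2, (3 * c + 1) / 2)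

/-- reachability of the merged state -/
inductive R : ℕ × ℤ → Prop
  | base : R (0, 0)
  | step (s : ℕ × ℤ) (b : Bool) (hs : s ≠ (0, 0)) (h : R (nx s b)) : R s

/-- pause counter -/
def N (v : ℕ) (c : ℤ) : ℕ :=
  (∑ j ∈ Finset.range v, if (2 : ℤ) ^ (j + 1) ∣ c then 1 else 0) + (if (2 : ℤ) ^ v ∣ c then 1 else 0)

lemma N_le (v : ℕ) (c : ℤ) : N v c ≤ v + 1 := by
  unfold N
  have h1 : (∑ j ∈ Finset.range v, if (2 : ℤ) ^ (j + 1) ∣ c then 1 else 0) ≤ v := by
    calc (∑ j ∈ Finset.range v, if (2 : ℤ) ^ (j + 1) ∣ c then 1 else 0)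
        ≤ ∑ j ∈ Finset.range v, 1 := by
          apply Finset.sum_le_sum; intro j _; split_ifs <;> simp
      _ = v := by simp
  split_ifs <;> omega

lemma N_odd (v : ℕ) (hv : 1 ≤ v) (c : ℤ) (hc : ¬ Even c) : N v c = 0 := by
  unfold N
  have h2 : ∀ j, 1 ≤ j → ¬ (2 : ℤ) ^ j ∣ c := by
    intro j hj hd
    apply hc
    rw [even_iff_two_dvd]
    exact (dvd_pow_self 2 (by omega)).trans hd
  have : (∑ j ∈ Finset.range v, if (2 : ℤ) ^ (j + 1) ∣ c then 1 else 0) = 0 := by
    apply Finset.sum_eq_zero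
    intro j hj
    rw [if_neg (h2 (j + 1) (by omega))]
  rw [this, if_neg (h2 v hv)]

lemma N_even_pos (v : ℕ) (hv : 1 ≤ v) (c : ℤ) (hc : Even c) : 1 ≤ N v c := by
  obtain ⟨u, rfl⟩ : ∃ u, v = u + 1 := ⟨v - 1, by omega⟩
  unfold N
  rw [Finset.sum_range_succ', zero_add, pow_one, if_pos (even_iff_two_dvd.mp hc)]
  omega

lemma N_pause (v : ℕ) (hv : 1 ≤ v) (c D : ℤ) (hD : (2 : ℤ) ^ v ∣ D) (hD' : ¬ (2 : ℤ) ^ (v + 1) ∣ D)
    (hc : Even c) : N v (c / 2) + N v ((3 * c - D) / 2) + 2 ≤ 2 * N v c := by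
  have e2 : (2 : ℤ) ∣ c := even_iff_two_dvd.mp hc
  have eD : (2 : ℤ) ∣ D := (dvd_pow_self 2 (by omega)).trans hD
  have e3 : (2 : ℤ) ∣ 3 * c - D := dvd_sub (e2.mul_left 3) eD
  have key : ∀ (x : ℤ) (j : ℕ), (2 : ℤ) ∣ x → ((2 : ℤ) ^ j ∣ x / 2 ↔ (2 : ℤ) ^ (j + 1) ∣ x) := by
    intro x j hx
    obtain ⟨y, rfl⟩ := hx
    rw [Int.mul_ediv_cancel_left _ (by norm_num), pow_succ, mul_comm ((2:ℤ)^j) 2]
    exact (mul_dvd_mul_iff_left (by norm_num)).symm
  have k3 : ∀ j : ℕ, ((2 : ℤ) ^ j ∣ 3 * c ↔ (2 : ℤ) ^ j ∣ c) := by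
    intro j
    constructor
    · intro h
      exact (IsCoprime.pow_left (by norm_num : IsCoprime (2:ℤ) 3)).dvd_of_dvd_mul_left h
    · intro h; exact h.mul_left 3
  obtain ⟨u, rfl⟩ : ∃ u, v = u + 1 := ⟨v - 1, by omega⟩
  have hsmall : ∀ j ≤ u + 1, ((2 : ℤ) ^ j ∣ 3 * c - D ↔ (2 : ℤ) ^ j ∣ c) := by
    intro j hj
    have hjD : (2 : ℤ) ^ j ∣ D := (pow_dvd_pow 2 hj).trans hD
    rw [dvd_sub_left hjD, k3]
  have hnot : ¬ ((2 : ℤ) ^ (u + 1 + 1) ∣ c ∧ (2 : ℤ) ^ (u + 1 + 1) ∣ 3 * c - D) := by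
    rintro ⟨h1, h2⟩
    apply hD'
    have : D = 3 * c - (3 * c - D) := by ring
    rw [this]
    exact dvd_sub (h1.mul_left 3) h2
  have himp1 : (2 : ℤ) ^ (u + 1 + 1) ∣ c → (2 : ℤ) ^ (u + 1) ∣ c := fun h => (pow_dvd_pow 2 (by omega)).trans h
  have himp2 : (2 : ℤ) ^ (u + 1 + 1) ∣ 3 * c - D → (2 : ℤ) ^ (u + 1) ∣ c := fun h =>
    (hsmall (u + 1) le_rfl).mp ((pow_dvd_pow 2 (by omega)).trans h)
  unfold N
  have s1 : (∑ j ∈ Finset.range (u + 1), if (2 : ℤ) ^ (j + 1) ∣ c / 2 then 1 else 0)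
      = (∑ j ∈ Finset.range u, if (2 : ℤ) ^ (j + 1 + 1) ∣ c then 1 else 0)
        + (if (2 : ℤ) ^ (u + 1 + 1) ∣ c then 1 else 0) := by
    rw [Finset.sum_range_succ]
    simp only [key c _ e2]
  have s2 : (∑ j ∈ Finset.range (u + 1), if (2 : ℤ) ^ (j + 1) ∣ (3 * c - D) / 2 then 1 else 0)
      = (∑ j ∈ Finset.range u, if (2 : ℤ) ^ (j + 1 + 1) ∣ c then 1 else 0)
        + (if (2 : ℤ) ^ (u + 1 + 1) ∣ 3 * c - D then 1 else 0) := by
    rw [Finset.sum_range_succ]
    congr 1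
    · apply Finset.sum_congr rfl; intro j hj
      rw [Finset.mem_range] at hj
      simp only [key _ (j + 1) e3, hsmall (j + 1 + 1) (by omega)]
    · simp only [key _ (u + 1) e3]
  have s3 : (∑ j ∈ Finset.range (u + 1), if (2 : ℤ) ^ (j + 1) ∣ c then 1 else 0)
      = (∑ j ∈ Finset.range u, if (2 : ℤ) ^ (j + 1 + 1) ∣ c then 1 else 0) + 1 := by
    rw [Finset.sum_range_succ', zero_add, pow_one, if_pos e2]
  rw [s1, s2, s3]
  have t1 : (if (2 : ℤ) ^ (u + 1) ∣ c / 2 then 1 else 0) = (if (2 : ℤ) ^ (u + 1 + 1) ∣ c then 1 else 0) := by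
    simp only [key c (u + 1) e2]
  have t2 : (if (2 : ℤ) ^ (u + 1) ∣ (3 * c - D) / 2 then 1 else 0) = (if (2 : ℤ) ^ (u + 1 + 1) ∣ 3 * c - D then 1 else 0) := by
    simp only [key _ (u + 1) e3]
  rw [t1, t2]
  by_cases a1 : (2 : ℤ) ^ (u + 1 + 1) ∣ c
  · have a2 : ¬ (2 : ℤ) ^ (u + 1 + 1) ∣ 3 * c - D := fun h => hnot ⟨a1, h⟩
    rw [if_pos a1, if_neg a2, if_pos (himp1 a1)]
    omega
  · rw [if_neg a1]
    by_cases a2 : (2 : ℤ) ^ (u + 1 + 1) ∣ 3 * c - D
    · rw [if_pos a2, if_pos (himp2 a2)]; omega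
    · rw [if_neg a2]; omega

/-- the 2-adic valuation of `3^h-1` -/
noncomputable def v (h : ℕ) : ℕ := padicValNat 2 (3 ^ h - 1)

lemma three_pow_gt (h : ℕ) (hh : 1 ≤ h) : 1 < 3 ^ h := Nat.one_lt_pow (by omega) (by norm_num)

lemma v_dvd (h : ℕ) : (2 : ℤ) ^ v h ∣ 3 ^ h - 1 := by
  have h1 : 2 ^ v h ∣ 3 ^ h - 1 := pow_padicValNat_dvd
  have h2 : ((3 ^ h - 1 : ℕ) : ℤ) = 3 ^ h - 1 := by
    rw [Nat.cast_sub (Nat.one_le_pow _ _ (by norm_num))]; push_cast; ring
  rw [← h2]
  exact_mod_cast h1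

lemma v_not_dvd (h : ℕ) (hh : 1 ≤ h) : ¬ (2 : ℤ) ^ (v h + 1) ∣ 3 ^ h - 1 := by
  have h0 : 3 ^ h - 1 ≠ 0 := by have := three_pow_gt h hh; omega
  have h1 : ¬ 2 ^ (v h + 1) ∣ 3 ^ h - 1 := pow_succ_padicValNat_not_dvd h0
  have h2 : ((3 ^ h - 1 : ℕ) : ℤ) = 3 ^ h - 1 := by
    rw [Nat.cast_sub (Nat.one_le_pow _ _ (by norm_num))]; push_cast; ring
  rw [← h2]
  exact_mod_cast h1

lemma v_pos (h : ℕ) (hh : 1 ≤ h) : 1 ≤ v h := by
  by_contra hcon
  have hv : v h = 0 := by omega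
  have := v_not_dvd h hh
  rw [hv] at this
  apply this
  rw [zero_add, pow_one, ← even_iff_two_dvd]
  have : Odd ((3 : ℤ) ^ h) := Odd.pow (by decide)
  obtain ⟨k, hk⟩ := this
  exact ⟨k, by omega⟩

lemma v_lt (h : ℕ) (hh : 1 ≤ h) : v h < 2 * h := by
  have h0 : 0 < 3 ^ h - 1 := by have := three_pow_gt h hh; omega
  have h1 : 2 ^ v h ≤ 3 ^ h - 1 := Nat.le_of_dvd h0 pow_padicValNat_dvd
  have h2 : 3 ^ h ≤ 4 ^ h := Nat.pow_le_pow_left (by norm_num) h
  have h3 : 2 ^ v h < 2 ^ (2 * h) := by rw [pow_mul]; norm_num; omega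
  exact (Nat.pow_lt_pow_iff_right (by norm_num)).mp h3

/-- pause potential -/
noncomputable def P (s : ℕ × ℤ) : ℕ := if s.1 = 0 then 0 else N (v s.1) s.2

lemma P_le (s : ℕ × ℤ) : P s ≤ 2 * s.1 := by
  unfold P
  split_ifs with h
  · omega
  · have := N_le (v s.1) s.2
    have := v_lt s.1 (by omega)
    omega

lemma nx_even_succ_false (h : ℕ) (c : ℤ) (hc : Even c) : nx (h + 1, c) false = (h + 1, c / 2) := by
  simp [nx, hc]
lemma nx_even_succ_true (h : ℕ) (c : ℤ) (hc : Even c) :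
    nx (h + 1, c) true = (h + 1, (3 * c + 1 - 3 ^ (h + 1)) / 2) := by
  simp [nx, hc]
lemma nx_odd_succ_false (h : ℕ) (c : ℤ) (hc : ¬ Even c) : nx (h + 1, c) false = (h + 2, (3 * c + 1) / 2) := by
  simp [nx, hc]
lemma nx_odd_succ_true (h : ℕ) (c : ℤ) (hc : ¬ Even c) : nx (h + 1, c) true = (h, (c - 3 ^ h) / 2) := by
  simp [nx, hc]
lemma nx_even_zero_false (c : ℤ) (hc : Even c) : nx (0, c) false = (0, c / 2) := by
  simp [nx, hc]
lemma nx_even_zero_true (c : ℤ) (hc : Even c) : nx (0, c) true = (0, 3 * c / 2) := by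
  simp [nx, hc]
lemma nx_odd_zero_false (c : ℤ) (hc : ¬ Even c) : nx (0, c) false = (1, (3 * c + 1) / 2) := by
  simp [nx, hc]
lemma nx_odd_zero_true (c : ℤ) (hc : ¬ Even c) : nx (0, c) true = (1, (1 - 3 * c) / 2) := by
  simp [nx, hc]

lemma P_pause (h : ℕ) (c : ℤ) (hc : Even c) :
    P (nx (h + 1, c) false) + P (nx (h + 1, c) true) + 2 ≤ 2 * P (h + 1, c) := by
  rw [nx_even_succ_false h c hc, nx_even_succ_true h c hc]
  unfold P
  simp only [Nat.add_eq_zero_iff, one_ne_zero, and_false, if_false]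
  have := N_pause (v (h + 1)) (v_pos _ (by omega)) c (3 ^ (h + 1) - 1) (v_dvd _) (v_not_dvd _ (by omega)) hc
  have e : 3 * c + 1 - 3 ^ (h + 1) = 3 * c - (3 ^ (h + 1) - 1) := by ring
  rw [e]; exact this

lemma R_zero_aux (n : ℕ) : ∀ c : ℤ, c.natAbs = n → R (0, c) := by
  induction n using Nat.strong_induction_on with
  | _ n ih =>
    intro c hc
    by_cases h0 : c = 0
    · subst h0; exact R.base
    have hne : ∀ h, ((h, c) : ℕ × ℤ) ≠ (0, 0) := by
      intro h hh; exact h0 (congrArg Prod.snd hh)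
    have hne1 : ∀ c, ((1, c) : ℕ × ℤ) ≠ (0, 0) := by
      intro c hh; have := congrArg Prod.fst hh; simp at this
    by_cases he : Even c
    · apply R.step (0, c) false (hne 0)
      rw [nx_even_zero_false c he]
      apply ih _ _ _ rfl
      obtain ⟨k, hk⟩ := he
      omega
    · have ho : c % 2 = 1 := Int.not_even_iff.mp he
      -- small cases
      have h12 : R (1, 2) := by
        apply R.step _ false (hne1 _)
        rw [nx_even_succ_false 0 2 (by decide)]
        apply R.step _ true (hne1 _)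
        have : ((0 + 1, (2:ℤ) / 2) : ℕ × ℤ) = (0 + 1, 1) := by norm_num
        rw [this, nx_odd_succ_true 0 1 (by decide)]
        have : ((0, ((1:ℤ) - 3 ^ 0) / 2) : ℕ × ℤ) = (0, 0) := by norm_num
        rw [this]; exact R.base
      by_cases h1 : c = 1
      · subst h1
        apply R.step _ false (hne 0)
        rw [nx_odd_zero_false 1 he]
        have : ((1, (3 * (1:ℤ) + 1) / 2) : ℕ × ℤ) = (1, 2) := by norm_num
        rw [this]; exact h12
      by_cases h2 : c = -1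
      · subst h2
        apply R.step _ true (hne 0)
        rw [nx_odd_zero_true (-1) he]
        have : ((1, (1 - 3 * (-1:ℤ)) / 2) : ℕ × ℤ) = (1, 2) := by norm_num
        rw [this]; exact h12
      by_cases h4 : c % 4 = 3
      · apply R.step _ false (hne 0)
        rw [nx_odd_zero_false c he]
        apply R.step _ true (hne1 _)
        have e1 : ¬ Even ((3 * c + 1) / 2) := by
          rw [Int.not_even_iff]; omega
        rw [nx_odd_succ_true 0 _ e1]
        apply ih _ _ _ rfl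
        rw [pow_zero]; omega
      · have h4' : c % 4 = 1 := by omega
        apply R.step _ true (hne 0)
        rw [nx_odd_zero_true c he]
        apply R.step _ true (hne1 _)
        have e1 : ¬ Even ((1 - 3 * c) / 2) := by
          rw [Int.not_even_iff]; omega
        rw [nx_odd_succ_true 0 _ e1]
        apply ih _ _ _ rfl
        rw [pow_zero]; omega

lemma R_all (s : ℕ × ℤ) : R s := by
  obtain ⟨h, c⟩ := s
  induction h generalizing c with
  | zero => exact R_zero_aux _ c rfl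
  | succ h ihh =>
    have main : ∀ n : ℕ, ∀ c : ℤ, P (h + 1, c) = n → R (h + 1, c) := by
      intro n
      induction n using Nat.strong_induction_on with
      | _ n ih =>
        intro c hn
        have hne : ((h + 1, c) : ℕ × ℤ) ≠ (0, 0) := by
          intro hh; have := congrArg Prod.fst hh; simp at this
        by_cases he : Even c
        · have hp := P_pause h c he
          have hpos : 1 ≤ P (h + 1, c) := by
            unfold P; simp only [Nat.add_eq_zero_iff, one_ne_zero, and_false, if_false]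
            exact N_even_pos _ (v_pos _ (by omega)) c he
          by_cases hl : P (nx (h + 1, c) false) < n
          · apply R.step _ false hne
            have e := nx_even_succ_false h c he
            rw [e] at hl ⊢
            exact ih _ hl _ rfl
          · have hl2 : P (nx (h + 1, c) true) < n := by omega
            apply R.step _ true hne
            have e := nx_even_succ_true h c he
            rw [e] at hl2 ⊢
            exact ih _ hl2 _ rfl
        · apply R.step _ true hne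
          rw [nx_odd_succ_true h c he]
          exact ihh _
    exact main _ c rfl

/-- the Lyapunov function -/
noncomputable def V (s : ℕ × ℤ) : ℝ :=
  s.1 + (9 / 10 : ℝ) ^ s.1 * (Real.sqrt (|(s.2 : ℝ)| / 3 ^ s.1) + (P s : ℝ) / 2)
    + 30000 * (1 - (19 / 20 : ℝ) ^ s.1)

lemma half_cast (x : ℤ) (hx : x % 2 = 0) : ((x / 2 : ℤ) : ℝ) = (x : ℝ) / 2 := by
  obtain ⟨k, rfl⟩ : ∃ k, x = 2 * k := ⟨x / 2, by omega⟩
  rw [Int.mul_ediv_cancel_left _ (by norm_num)]
  push_cast; ring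

lemma sqrt_bd (x t a b : ℝ) (ht : 0 ≤ t) (ha : 0 ≤ a) (hb : 0 ≤ b) (A B : ℝ)
    (hA : A ≤ a ^ 2) (hB : B ≤ b ^ 2) (hx : x ≤ A * t ^ 2 + B) :
    Real.sqrt x ≤ a * t + b := by
  apply Real.sqrt_le_iff.mpr
  refine ⟨by positivity, ?_⟩
  have : A * t ^ 2 ≤ a ^ 2 * t ^ 2 := mul_le_mul_of_nonneg_right hA (by positivity)
  have h2 : 0 ≤ a * t * b := by positivity
  nlinarith

lemma V_caseA (h : ℕ) (c : ℤ) (hc : Even c) :
    (V (nx (h + 1, c) false) + V (nx (h + 1, c) true)) / 2 ≤ V (h + 1, c) := by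
  have hp := P_pause h c hc
  have hpr : (P (nx (h + 1, c) false) : ℝ) + P (nx (h + 1, c) true) + 2 ≤ 2 * P (h + 1, c) := by
    exact_mod_cast hp
  have e1 := nx_even_succ_false h c hc
  have e2 := nx_even_succ_true h c hc
  have hc2 : c % 2 = 0 := Int.even_iff.mp hc
  set T : ℝ := (3 : ℝ) ^ (h + 1) with hT
  have hTpos : 0 < T := by positivity
  have hT1 : 1 ≤ T := one_le_pow₀ (by norm_num)
  set t : ℝ := Real.sqrt (|(c : ℝ)| / T) with ht
  have ht0 : 0 ≤ t := Real.sqrt_nonneg _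
  have ht2 : t ^ 2 = |(c : ℝ)| / T := Real.sq_sqrt (by positivity)
  have b1 : Real.sqrt (|((c / 2 : ℤ) : ℝ)| / T) ≤ 71 / 100 * t + 0 := by
    apply sqrt_bd _ t (71 / 100) 0 ht0 (by norm_num) le_rfl (1 / 2) 0 (by norm_num) (by norm_num)
    rw [half_cast c hc2, ht2, abs_div, abs_of_pos (by norm_num : (0:ℝ) < 2)]
    apply le_of_eq; ring
  have b2 : Real.sqrt (|(((3 * c + 1 - 3 ^ (h + 1)) / 2 : ℤ) : ℝ)| / T) ≤ 123 / 100 * t + 71 / 100 := by
    apply sqrt_bd _ t (123 / 100) (71 / 100) ht0 (by norm_num) (by norm_num) (3 / 2) (1 / 2)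
      (by norm_num) (by norm_num)
    have hodd : (3 * c + 1 - 3 ^ (h + 1)) % 2 = 0 := by
      have : Odd ((3 : ℤ) ^ (h + 1)) := Odd.pow (by decide)
      obtain ⟨k, hk⟩ := this
      omega
    rw [half_cast _ hodd, ht2, abs_div, abs_of_pos (by norm_num : (0:ℝ) < 2)]
    push_cast
    rw [← hT]
    have habs : |3 * (c : ℝ) + 1 - T| ≤ 3 * |(c : ℝ)| + T := by
      rw [abs_le]
      have h1 := neg_abs_le (c : ℝ)
      have h2 := le_abs_self (c : ℝ)
      constructor <;> linarith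
    rw [div_div, mul_comm (3 / 2 : ℝ), div_mul_eq_mul_div, ← sub_le_iff_le_add]
    rw [div_sub' (by positivity), div_le_div_iff₀ (by positivity) (by positivity)]
    have : 0 ≤ T := hTpos.le
    nlinarith
  rw [e1, e2] at hpr
  rw [e1, e2]
  unfold V
  simp only
  rw [← hT] at *
  have hB : (0:ℝ) < (9 / 10) ^ (h + 1) := by positivity
  set B : ℝ := (9 / 10) ^ (h + 1)
  set p1 : ℝ := (P (h + 1, c / 2) : ℝ)
  set p2 : ℝ := (P (h + 1, (3 * c + 1 - 3 ^ (h + 1)) / 2) : ℝ)
  set p0 : ℝ := (P (h + 1, c) : ℝ)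
  set x1 := Real.sqrt (|((c / 2 : ℤ) : ℝ)| / T)
  set x2 := Real.sqrt (|(((3 * c + 1 - 3 ^ (h + 1)) / 2 : ℤ) : ℝ)| / T)
  have hin : (x1 + p1 / 2 + (x2 + p2 / 2)) / 2 ≤ t + p0 / 2 := by linarith
  have := mul_le_mul_of_nonneg_left hin hB.le
  nlinarith

lemma V_caseB (h : ℕ) (c : ℤ) (hc : ¬ Even c) :
    (V (nx (h + 1, c) false) + V (nx (h + 1, c) true)) / 2 ≤ V (h + 1, c) := by
  have e1 := nx_odd_succ_false h c hc
  have e2 := nx_odd_succ_true h c hc
  have hc2 : c % 2 = 1 := Int.not_even_iff.mp hc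
  have hP0 : P (h + 1, c) = 0 := by
    unfold P; simp only [Nat.add_eq_zero_iff, one_ne_zero, and_false, if_false]
    exact N_odd _ (v_pos _ (by omega)) c hc
  have hp1 : (P (h + 2, (3 * c + 1) / 2) : ℝ) ≤ 2 * (h + 2) := by
    have := P_le (h + 2, (3 * c + 1) / 2); exact_mod_cast this
  have hp2 : (P (h, (c - 3 ^ h) / 2) : ℝ) ≤ 2 * h := by
    have := P_le (h, (c - 3 ^ h) / 2); exact_mod_cast this
  set S : ℝ := (3 : ℝ) ^ h with hS
  have hSpos : 0 < S := by positivity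
  have hS1 : 1 ≤ S := one_le_pow₀ (by norm_num)
  have hT : (3 : ℝ) ^ (h + 1) = 3 * S := by rw [hS, pow_succ]; ring
  have hU : (3 : ℝ) ^ (h + 2) = 9 * S := by rw [hS, pow_succ, pow_succ]; ring
  set t : ℝ := Real.sqrt (|(c : ℝ)| / (3 * S)) with ht
  have ht0 : 0 ≤ t := Real.sqrt_nonneg _
  have ht2 : t ^ 2 = |(c : ℝ)| / (3 * S) := Real.sq_sqrt (by positivity)
  have hc' : |(c : ℝ)| = 3 * S * t ^ 2 := by rw [ht2]; field_simp
  have b1 : Real.sqrt (|(((3 * c + 1) / 2 : ℤ) : ℝ)| / (9 * S)) ≤ 7072 / 10000 * t + 24 / 100 := by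
    apply sqrt_bd _ t (7072 / 10000) (24 / 100) ht0 (by norm_num) (by norm_num) (1 / 2) (1 / 18)
      (by norm_num) (by norm_num)
    rw [half_cast _ (by omega), abs_div, abs_of_pos (by norm_num : (0:ℝ) < 2)]
    push_cast
    have habs : |3 * (c : ℝ) + 1| ≤ 3 * |(c : ℝ)| + 1 := by
      rw [abs_le]
      have h1 := neg_abs_le (c : ℝ)
      have h2 := le_abs_self (c : ℝ)
      constructor <;> linarith
    rw [div_div, div_le_iff₀ (by positivity)]
    rw [hc'] at habs
    nlinarith [sq_nonneg t]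
  have b2 : Real.sqrt (|(((c - 3 ^ h) / 2 : ℤ) : ℝ)| / S) ≤ 12248 / 10000 * t + 7072 / 10000 := by
    apply sqrt_bd _ t (12248 / 10000) (7072 / 10000) ht0 (by norm_num) (by norm_num) (3 / 2) (1 / 2)
      (by norm_num) (by norm_num)
    have hodd : (c - 3 ^ h) % 2 = 0 := by
      have : Odd ((3 : ℤ) ^ h) := Odd.pow (by decide)
      obtain ⟨k, hk⟩ := this
      omega
    rw [half_cast _ hodd, abs_div, abs_of_pos (by norm_num : (0:ℝ) < 2)]
    push_cast
    rw [← hS]
    have habs : |(c : ℝ) - S| ≤ |(c : ℝ)| + S := by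
      rw [abs_le]
      have h1 := neg_abs_le (c : ℝ)
      have h2 := le_abs_self (c : ℝ)
      constructor <;> linarith
    rw [div_div, div_le_iff₀ (by positivity)]
    rw [hc'] at habs
    nlinarith [sq_nonneg t]
  have hBern : ((h : ℝ) + 1) * (9 / 10) ^ h ≤ 18 * (19 / 20) ^ h := by
    have h1 : 1 + (h : ℝ) * (1 / 18) ≤ (1 + 1 / 18 : ℝ) ^ h :=
      one_add_mul_le_pow (by norm_num) h
    have h2 : (19 / 20 : ℝ) ^ h = (1 + 1 / 18) ^ h * (9 / 10) ^ h := by
      rw [← mul_pow]; norm_num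
    rw [h2]
    have h3 : (0:ℝ) < (9 / 10) ^ h := by positivity
    nlinarith
  rw [e1, e2]
  unfold V
  simp only [hP0]
  rw [hT, hU, ← hS]
  have q1 : (9 / 10 : ℝ) ^ (h + 2) = 81 / 100 * (9 / 10) ^ h := by rw [pow_succ, pow_succ]; ring
  have q2 : (9 / 10 : ℝ) ^ (h + 1) = 9 / 10 * (9 / 10) ^ h := by rw [pow_succ]; ring
  have q3 : (19 / 20 : ℝ) ^ (h + 2) = 361 / 400 * (19 / 20) ^ h := by rw [pow_succ, pow_succ]; ring
  have q4 : (19 / 20 : ℝ) ^ (h + 1) = 19 / 20 * (19 / 20) ^ h := by rw [pow_succ]; ring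
  rw [q1, q2, q3, q4]
  have hB : (0:ℝ) < (9 / 10) ^ h := by positivity
  have hG : (0:ℝ) < (19 / 20) ^ h := by positivity
  set B : ℝ := (9 / 10) ^ h
  set G : ℝ := (19 / 20) ^ h
  set p1 : ℝ := (P (h + 2, (3 * c + 1) / 2) : ℝ)
  set p2 : ℝ := (P (h, (c - 3 ^ h) / 2) : ℝ)
  set x1 := Real.sqrt (|(((3 * c + 1) / 2 : ℤ) : ℝ)| / (9 * S))
  set x2 := Real.sqrt (|(((c - 3 ^ h) / 2 : ℤ) : ℝ)| / S)
  push_cast
  have hh0 : (0:ℝ) ≤ h := Nat.cast_nonneg h
  have hin : (81 / 100 * (x1 + p1 / 2) + (x2 + p2 / 2)) / 2 ≤ 9 / 10 * t + 13 / 10 * (h + 1) := by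
    linarith
  have := mul_le_mul_of_nonneg_left hin hB.le
  nlinarith

lemma V_caseC (c : ℤ) (hc : Even c) :
    (V (nx (0, c) false) + V (nx (0, c) true)) / 2 ≤ V (0, c) := by
  rw [nx_even_zero_false c hc, nx_even_zero_true c hc]
  have hc2 : c % 2 = 0 := Int.even_iff.mp hc
  unfold V
  simp only [pow_zero, div_one, P, if_true, Nat.cast_zero, zero_div, add_zero, one_mul, sub_self, mul_zero, zero_add]
  set t : ℝ := Real.sqrt (|(c : ℝ)|) with ht
  have ht0 : 0 ≤ t := Real.sqrt_nonneg _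
  have ht2 : t ^ 2 = |(c : ℝ)| := Real.sq_sqrt (by positivity)
  have b1 : Real.sqrt (|((c / 2 : ℤ) : ℝ)|) ≤ 71 / 100 * t + 0 := by
    apply sqrt_bd _ t (71 / 100) 0 ht0 (by norm_num) le_rfl (1 / 2) 0 (by norm_num) (by norm_num)
    rw [half_cast c hc2, ht2, abs_div, abs_of_pos (by norm_num : (0:ℝ) < 2)]
    apply le_of_eq; ring
  have b2 : Real.sqrt (|((3 * c / 2 : ℤ) : ℝ)|) ≤ 123 / 100 * t + 0 := by
    apply sqrt_bd _ t (123 / 100) 0 ht0 (by norm_num) le_rfl (3 / 2) 0 (by norm_num) (by norm_num)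
    rw [half_cast (3 * c) (by omega), ht2, abs_div, abs_of_pos (by norm_num : (0:ℝ) < 2)]
    push_cast
    rw [abs_mul, abs_of_pos (by norm_num : (0:ℝ) < 3)]
    apply le_of_eq; ring
  linarith

lemma V_caseD (c : ℤ) (hc : ¬ Even c) (hbig : 20000000 < |(c : ℝ)|) :
    (V (nx (0, c) false) + V (nx (0, c) true)) / 2 ≤ V (0, c) := by
  rw [nx_odd_zero_false c hc, nx_odd_zero_true c hc]
  have hc2 : c % 2 = 1 := Int.not_even_iff.mp hc
  have hp1 : (P (1, (3 * c + 1) / 2) : ℝ) ≤ 2 := by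
    have := P_le (1, (3 * c + 1) / 2); exact_mod_cast this
  have hp2 : (P (1, (1 - 3 * c) / 2) : ℝ) ≤ 2 := by
    have := P_le (1, (1 - 3 * c) / 2); exact_mod_cast this
  have hP0 : P (0, c) = 0 := by simp [P]
  unfold V
  simp only [hP0, pow_zero, div_one, pow_one, Nat.cast_zero, zero_div, add_zero, one_mul, sub_self, mul_zero,
    zero_add, Nat.cast_one]
  set t : ℝ := Real.sqrt (|(c : ℝ)|) with ht
  have ht0 : 0 ≤ t := Real.sqrt_nonneg _
  have ht2 : t ^ 2 = |(c : ℝ)| := Real.sq_sqrt (by positivity)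
  have htbig : 4400 ≤ t := by
    apply Real.le_sqrt_of_sq_le
    linarith
  have b1 : Real.sqrt (|(((3 * c + 1) / 2 : ℤ) : ℝ)| / 3) ≤ 71 / 100 * t + 41 / 100 := by
    apply sqrt_bd _ t (71 / 100) (41 / 100) ht0 (by norm_num) (by norm_num) (1 / 2) (1 / 6)
      (by norm_num) (by norm_num)
    rw [half_cast _ (by omega), abs_div, abs_of_pos (by norm_num : (0:ℝ) < 2)]
    push_cast
    have habs : |3 * (c : ℝ) + 1| ≤ 3 * |(c : ℝ)| + 1 := by
      rw [abs_le]
      have h1 := neg_abs_le (c : ℝ)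
      have h2 := le_abs_self (c : ℝ)
      constructor <;> linarith
    rw [ht2]; linarith
  have b2 : Real.sqrt (|(((1 - 3 * c) / 2 : ℤ) : ℝ)| / 3) ≤ 71 / 100 * t + 41 / 100 := by
    apply sqrt_bd _ t (71 / 100) (41 / 100) ht0 (by norm_num) (by norm_num) (1 / 2) (1 / 6)
      (by norm_num) (by norm_num)
    rw [half_cast _ (by omega), abs_div, abs_of_pos (by norm_num : (0:ℝ) < 2)]
    push_cast
    have habs : |1 - 3 * (c : ℝ)| ≤ 3 * |(c : ℝ)| + 1 := by
      rw [abs_le]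
      have h1 := neg_abs_le (c : ℝ)
      have h2 := le_abs_self (c : ℝ)
      constructor <;> linarith
    rw [ht2]; linarith
  linarith

/-- the exceptional finite set -/
def F (s : ℕ × ℤ) : Prop := s.1 = 0 ∧ |(s.2 : ℝ)| ≤ 20000000

lemma V_super (s : ℕ × ℤ) (hs : ¬ F s) : (V (nx s false) + V (nx s true)) / 2 ≤ V s := by
  obtain ⟨h, c⟩ := s
  rcases h with _ | h
  · by_cases hc : Even c
    · exact V_caseC c hc
    · apply V_caseD c hc
      by_contra hcon
      exact hs ⟨rfl, not_lt.mp hcon⟩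
  · by_cases hc : Even c
    · exact V_caseA h c hc
    · exact V_caseB h c hc

lemma V_nonneg (s : ℕ × ℤ) : 0 ≤ V s := by
  unfold V
  have h1 : (19 / 20 : ℝ) ^ s.1 ≤ 1 := pow_le_one₀ (by norm_num) (by norm_num)
  have h2 : 0 ≤ 30000 * (1 - (19 / 20 : ℝ) ^ s.1) := by linarith
  positivity

lemma V_ge_fst (s : ℕ × ℤ) : (s.1 : ℝ) ≤ V s := by
  unfold V
  have h1 : (19 / 20 : ℝ) ^ s.1 ≤ 1 := pow_le_one₀ (by norm_num) (by norm_num)
  have h2 : 0 ≤ 30000 * (1 - (19 / 20 : ℝ) ^ s.1) := by linarith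
  have h3 : 0 ≤ (9 / 10 : ℝ) ^ s.1 * (Real.sqrt (|(s.2 : ℝ)| / 3 ^ s.1) + (P s : ℝ) / 2) := by positivity
  linarith

lemma V_ge_sqrt (s : ℕ × ℤ) : (9 / 10 : ℝ) ^ s.1 * Real.sqrt (|(s.2 : ℝ)| / 3 ^ s.1) ≤ V s := by
  unfold V
  have h1 : (19 / 20 : ℝ) ^ s.1 ≤ 1 := pow_le_one₀ (by norm_num) (by norm_num)
  have h2 : 0 ≤ 30000 * (1 - (19 / 20 : ℝ) ^ s.1) := by linarith
  have h3 : 0 ≤ (9 / 10 : ℝ) ^ s.1 * ((P s : ℝ) / 2) := by positivity
  have h4 : (0 : ℝ) ≤ s.1 := Nat.cast_nonneg _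
  rw [mul_add]
  linarith

lemma V_sublevel (M : ℝ) : {s : ℕ × ℤ | V s ≤ M}.Finite := by
  have hsub : {s : ℕ × ℤ | V s ≤ M} ⊆
      ⋃ h ∈ Finset.range (⌊M⌋₊ + 1), (fun c : ℤ => (h, c)) ''
        Set.Icc (-⌈(3 : ℝ) ^ h * (M / (9 / 10) ^ h) ^ 2⌉) ⌈(3 : ℝ) ^ h * (M / (9 / 10) ^ h) ^ 2⌉ := by
    intro s hs
    obtain ⟨h, c⟩ := s
    have hs' : V (h, c) ≤ M := hs
    have h1 := V_ge_fst (h, c)
    have h2 := V_ge_sqrt (h, c)
    simp only at h1 h2
    have hM : (h : ℝ) ≤ M := h1.trans hs'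
    have hM' : h ≤ ⌊M⌋₊ := Nat.le_floor hM
    simp only [Set.mem_iUnion]
    refine ⟨h, Finset.mem_range.mpr (by omega), c, ?_, rfl⟩
    have hB : (0 : ℝ) < (9 / 10) ^ h := by positivity
    have h3 : Real.sqrt (|(c : ℝ)| / 3 ^ h) ≤ M / (9 / 10) ^ h := by
      rw [le_div_iff₀ hB, mul_comm]; linarith
    have h4 : |(c : ℝ)| / 3 ^ h ≤ (M / (9 / 10) ^ h) ^ 2 := by
      have h5 := Real.sq_sqrt (show (0:ℝ) ≤ |(c : ℝ)| / 3 ^ h by positivity)
      rw [← h5]
      exact pow_le_pow_left₀ (Real.sqrt_nonneg _) h3 2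
    have h6 : |(c : ℝ)| ≤ (3 : ℝ) ^ h * (M / (9 / 10) ^ h) ^ 2 := by
      rw [div_le_iff₀ (by positivity)] at h4
      linarith
    have h7 : |(c : ℝ)| ≤ (⌈(3 : ℝ) ^ h * (M / (9 / 10) ^ h) ^ 2⌉ : ℝ) := h6.trans (Int.le_ceil _)
    have h8 : |c| ≤ ⌈(3 : ℝ) ^ h * (M / (9 / 10) ^ h) ^ 2⌉ := by exact_mod_cast h7
    exact Set.mem_Icc.mpr (abs_le.mp h8)
  apply Set.Finite.subset _ hsub
  apply Set.Finite.biUnion (Finset.finite_toSet _)
  intro h _
  exact (Set.finite_Icc _ _).image _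

lemma F_finite : {s : ℕ × ℤ | F s}.Finite := by
  apply Set.Finite.subset (Set.Finite.image (fun c : ℤ => ((0, c) : ℕ × ℤ)) (Set.finite_Icc (-20000000) 20000000))
  rintro ⟨h, c⟩ ⟨h1, h2⟩
  simp only at h1 h2
  refine ⟨c, ?_, by rw [h1]⟩
  have : |c| ≤ 20000000 := by exact_mod_cast h2
  exact Set.mem_Icc.mpr (abs_le.mp this)

/-- A bounded function on states, vanishing at the merged state and averaging, is zero. -/
lemma harmonic_zero (q : ℕ × ℤ → ℝ) (h1 : ∀ s, q s ≤ 1) (h0 : ∀ s, 0 ≤ q s) (hz : q (0, 0) = 0)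
    (hh : ∀ s, s ≠ (0, 0) → q s ≤ (q (nx s false) + q (nx s true)) / 2) : ∀ s, q s = 0 := by
  -- the maximum over F
  have hF0 : F (0, 0) := ⟨rfl, by norm_num⟩
  obtain ⟨s1, hs1, hmax⟩ := Set.exists_max_image {s : ℕ × ℤ | F s} q F_finite ⟨(0, 0), hF0⟩
  set A := q s1 with hA
  have hA0 : 0 ≤ A := h0 s1
  have step2 : ∀ ε : ℝ, 0 < ε → ∀ s, q s ≤ A + ε * V s := by
    intro ε hε
    by_contra hcon
    push Not at hcon
    obtain ⟨s0, hs0⟩ := hcon
    set G : ℕ × ℤ → ℝ := fun s => q s - A - ε * V s with hG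
    have hfin : {s : ℕ × ℤ | 0 < G s}.Finite := by
      apply Set.Finite.subset (V_sublevel (1 / ε))
      intro s hs
      have hs' : 0 < q s - A - ε * V s := hs
      have := h1 s
      change V s ≤ 1 / ε
      rw [le_div_iff₀ hε]
      linarith
    obtain ⟨s2, hs2, hmax2⟩ := Set.exists_max_image {s : ℕ × ℤ | 0 < G s} G hfin
      ⟨s0, by change 0 < q s0 - A - ε * V s0; linarith⟩
    have hm : 0 < G s2 := hs2
    have hall : ∀ s, G s ≤ G s2 := by
      intro s
      by_cases hs : 0 < G s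
      · exact hmax2 s hs
      · linarith
    have hprop : ∀ s, R s → G s = G s2 → False := by
      intro s hR
      induction hR with
      | base =>
        intro h
        have h3 : G (0, 0) ≤ 0 := by
          have := V_nonneg (0, 0)
          have h4 : 0 ≤ ε * V (0, 0) := by positivity
          change q (0, 0) - A - ε * V (0, 0) ≤ 0
          rw [hz]; linarith
        linarith
      | step s b hs hR ih =>
        intro h
        by_cases hF : F s
        · have h3 : q s ≤ A := hmax s hF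
          have h4 : 0 ≤ ε * V s := mul_nonneg hε.le (V_nonneg s)
          have h5 : G s ≤ 0 := by change q s - A - ε * V s ≤ 0; linarith
          linarith
        · apply ih
          have h3 := hh s hs
          have h4 := V_super s hF
          have h5 : G s ≤ (G (nx s false) + G (nx s true)) / 2 := by
            change q s - A - ε * V s ≤ ((q (nx s false) - A - ε * V (nx s false))
              + (q (nx s true) - A - ε * V (nx s true))) / 2
            have := mul_le_mul_of_nonneg_left h4 hε.le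
            linarith
          have h6 := hall (nx s false)
          have h7 := hall (nx s true)
          cases b
          · linarith
          · linarith
    exact hprop s2 (R_all s2) rfl
  have step3 : ∀ s, q s ≤ A := by
    intro s
    apply le_of_forall_pos_le_add
    intro δ hδ
    have hV := V_nonneg s
    have := step2 (δ / (V s + 1)) (by positivity) s
    have h3 : δ / (V s + 1) * V s ≤ δ := by
      rw [div_mul_eq_mul_div, div_le_iff₀ (by positivity)]
      nlinarith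
    linarith
  have step4 : A = 0 := by
    by_contra hne
    have hprop : ∀ s, R s → q s = A → False := by
      intro s hR
      induction hR with
      | base => intro h; rw [hz] at h; exact hne h.symm
      | step s b hs hR ih =>
        intro h
        apply ih
        have h3 := hh s hs
        have h4 := step3 (nx s false)
        have h5 := step3 (nx s true)
        cases b
        · linarith
        · linarith
    exact hprop s1 (R_all s1) rfl
  intro s
  have := step3 s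
  have := h0 s
  linarith

/-- proportion of bit strings of length `K` not leading to the merged state -/
noncomputable def qK : ℕ → ℕ × ℤ → ℝ
  | 0, s => if s = (0, 0) then 0 else 1
  | K + 1, s => if s = (0, 0) then 0 else (qK K (nx s false) + qK K (nx s true)) / 2

lemma qK_zero_state (K : ℕ) : qK K (0, 0) = 0 := by
  cases K <;> simp [qK]

lemma qK_nonneg (K : ℕ) : ∀ s, 0 ≤ qK K s := by
  induction K with
  | zero => intro s; unfold qK; split_ifs <;> norm_num
  | succ K ih => 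
    intro s; unfold qK; split_ifs
    · exact le_rfl
    · have := ih (nx s false); have := ih (nx s true); linarith

lemma qK_le_one (K : ℕ) : ∀ s, qK K s ≤ 1 := by
  induction K with
  | zero => intro s; unfold qK; split_ifs <;> norm_num
  | succ K ih => 
    intro s; unfold qK; split_ifs
    · norm_num
    · have := ih (nx s false); have := ih (nx s true); linarith

lemma qK_anti (K : ℕ) : ∀ s, qK (K + 1) s ≤ qK K s := by
  induction K with
  | zero => 
    intro s
    by_cases hs : s = (0, 0)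
    · rw [hs, qK_zero_state, qK_zero_state]
    · have h1 := qK_le_one 1 s
      simpa [qK, hs] using h1
  | succ K ih => 
    intro s
    by_cases hs : s = (0, 0)
    · rw [hs, qK_zero_state, qK_zero_state]
    · have h1 := ih (nx s false)
      have h2 := ih (nx s true)
      have e1 : qK (K + 1 + 1) s = (qK (K + 1) (nx s false) + qK (K + 1) (nx s true)) / 2 := by
        rw [qK, if_neg hs]
      have e2 : qK (K + 1) s = (qK K (nx s false) + qK K (nx s true)) / 2 := by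
        rw [qK, if_neg hs]
      rw [e1, e2]; linarith

lemma qK_tendsto (s : ℕ × ℤ) : Filter.Tendsto (fun K => qK K s) Filter.atTop (nhds 0) := by
  have hanti : ∀ s, Antitone (fun K => qK K s) := fun s => antitone_nat_of_succ_le (fun K => qK_anti K s)
  have hbdd : ∀ s, BddBelow (Set.range (fun K => qK K s)) := by
    intro s; refine ⟨0, ?_⟩; rintro x ⟨K, rfl⟩; exact qK_nonneg K s
  have hlim : ∀ s, Filter.Tendsto (fun K => qK K s) Filter.atTop (nhds (⨅ K, qK K s)) :=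
    fun s => tendsto_atTop_ciInf (hanti s) (hbdd s)
  have hz : ∀ s, (⨅ K, qK K s) = 0 := by
    apply harmonic_zero
    · intro s; exact (ciInf_le (hbdd s) 0).trans (qK_le_one 0 s)
    · intro s; exact le_ciInf (fun K => qK_nonneg K s)
    · apply le_antisymm
      · exact (ciInf_le (hbdd _) 0).trans (qK_zero_state 0).le
      · exact le_ciInf (fun K => qK_nonneg K _)
    · intro s hs
      have h1 : Filter.Tendsto (fun K => qK (K + 1) s) Filter.atTop (nhds (⨅ K, qK K s)) :=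
        (hlim s).comp (Filter.tendsto_add_atTop_nat 1)
      have h2 : Filter.Tendsto (fun K => (qK K (nx s false) + qK K (nx s true)) / 2) Filter.atTop
          (nhds (((⨅ K, qK K (nx s false)) + (⨅ K, qK K (nx s true))) / 2)) :=
        ((hlim _).add (hlim _)).div_const 2
      have h3 : (fun K => qK (K + 1) s) = (fun K => (qK K (nx s false) + qK K (nx s true)) / 2) := by
        funext K; rw [qK, if_neg hs]
      rw [h3] at h1
      exact (tendsto_nhds_unique h1 h2).le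
  have := hlim s
  rwa [hz s] at this

/-- evolution of the first member of the pair -/
def nw (s : ℕ × ℤ) (w : ℤ) : ℤ :=
  if Even w then w / 2 else if s.1 = 0 ∧ ¬ Even s.2 then (w + s.2) / 2 else (3 * w + 1) / 2

/-- merged within `K` accelerated steps -/
def ab : ℕ → ℕ × ℤ → ℤ → Prop
  | 0, s, _ => s = (0, 0)
  | K + 1, s, w => s = (0, 0) ∨ ab K (nx s (decide (¬ Even w))) (nw s w)

lemma ab_merged (K : ℕ) (w : ℤ) : ab K (0, 0) w := by
  cases K
  · rfl
  · left; rfl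

lemma ab_succ_even (K : ℕ) (s : ℕ × ℤ) (hs : s ≠ (0, 0)) (x : ℤ) :
    ab (K + 1) s (2 * x) ↔ ab K (nx s false) x := by
  have he : Even (2 * x) := even_two_mul x
  have e1 : decide (¬ Even (2 * x)) = false := by simp
  have e2 : nw s (2 * x) = x := by
    unfold nw; rw [if_pos he]; exact Int.mul_ediv_cancel_left _ (by norm_num)
  constructor
  · rintro (h | h)
    · exact absurd h hs
    · rwa [e1, e2] at h
  · intro h; right; rwa [e1, e2]

lemma ab_succ_odd (K : ℕ) (s : ℕ × ℤ) (hs : s ≠ (0, 0)) (x : ℤ) :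
    ab (K + 1) s (2 * x + 1) ↔
      ab K (nx s true) (if s.1 = 0 ∧ ¬ Even s.2 then x + (s.2 + 1) / 2 else 3 * x + 2) := by
  have he : ¬ Even (2 * x + 1) := by rw [Int.not_even_iff]; omega
  have e1 : decide (¬ Even (2 * x + 1)) = true := decide_eq_true he
  have e2 : nw s (2 * x + 1) = (if s.1 = 0 ∧ ¬ Even s.2 then x + (s.2 + 1) / 2 else 3 * x + 2) := by
    unfold nw; rw [if_neg he]
    split_ifs with h
    · have := Int.not_even_iff.mp h.2
      omega
    · omega
  constructor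
  · rintro (h | h)
    · exact absurd h hs
    · rwa [e1, e2] at h
  · intro h; right; rwa [e1, e2]

lemma ab_periodic (K : ℕ) : ∀ (s : ℕ × ℤ) (w t : ℤ), ab K s (w + 2 ^ K * t) ↔ ab K s w := by
  induction K with
  | zero => intro s w t; rfl
  | succ K ih =>
    intro s w t
    by_cases hs : s = (0, 0)
    · subst hs; exact ⟨fun _ => ab_merged _ _, fun _ => ab_merged _ _⟩
    rcases Int.even_or_odd w with ⟨x, hx⟩ | ⟨x, hx⟩
    · have hx' : w = 2 * x := by omega
      subst hx'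
      have e : 2 * x + 2 ^ (K + 1) * t = 2 * (x + 2 ^ K * t) := by rw [pow_succ]; ring
      rw [e, ab_succ_even K s hs, ab_succ_even K s hs, ih]
    · subst hx
      have e : 2 * x + 1 + 2 ^ (K + 1) * t = 2 * (x + 2 ^ K * t) + 1 := by rw [pow_succ]; ring
      rw [e, ab_succ_odd K s hs, ab_succ_odd K s hs]
      split_ifs with h
      · have e2 : x + 2 ^ K * t + (s.2 + 1) / 2 = (x + (s.2 + 1) / 2) + 2 ^ K * t := by ring
        rw [e2, ih]
      · have e2 : 3 * (x + 2 ^ K * t) + 2 = (3 * x + 2) + 2 ^ K * (3 * t) := by ring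
        rw [e2, ih]

open Classical in
/-- number of unmerged residues modulo `2^K` -/
noncomputable def cnt (K : ℕ) (s : ℕ × ℤ) : ℕ :=
  ((Finset.Ico (0 : ℤ) (2 ^ K)).filter (fun w => ¬ ab K s w)).card

lemma card_affine (K : ℕ) (a b : ℤ) (ha : IsCoprime (2 ^ K : ℤ) a) (Q : ℤ → Prop)
    [DecidablePred Q] [DecidablePred (fun x => Q (a * x + b))] (hQ : ∀ w t, Q (w + 2 ^ K * t) ↔ Q w) :
    ((Finset.Ico (0 : ℤ) (2 ^ K)).filter (fun x => Q (a * x + b))).card
      ≤ ((Finset.Ico (0 : ℤ) (2 ^ K)).filter (fun x => Q x)).card := by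
  have hM : (0 : ℤ) < 2 ^ K := by positivity
  apply Finset.card_le_card_of_injOn (fun x => (a * x + b) % 2 ^ K)
  · intro x hx
    rw [Finset.mem_coe, Finset.mem_filter] at hx ⊢
    refine ⟨Finset.mem_Ico.mpr ⟨Int.emod_nonneg _ hM.ne', Int.emod_lt_of_pos _ hM⟩, ?_⟩
    have e : (a * x + b) % 2 ^ K = (a * x + b) + 2 ^ K * (-((a * x + b) / 2 ^ K)) := by
      have := Int.emod_add_mul_ediv (a * x + b) (2 ^ K)
      linarith
    change Q ((a * x + b) % 2 ^ K)
    rw [e, hQ]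
    exact hx.2
  · intro x hx y hy hxy
    rw [Finset.mem_coe, Finset.mem_filter, Finset.mem_Ico] at hx hy
    have h1 : (a * x + b) % 2 ^ K = (a * y + b) % 2 ^ K := hxy
    have h2 : (2 ^ K : ℤ) ∣ (a * x + b) - (a * y + b) :=
      Int.ModEq.dvd (show (a * y + b) ≡ (a * x + b) [ZMOD 2 ^ K] from h1.symm)
    have h3 : (2 ^ K : ℤ) ∣ a * (x - y) := by
      have e : (a * x + b) - (a * y + b) = a * (x - y) := by ring
      rwa [e] at h2
    have h4 : (2 ^ K : ℤ) ∣ x - y := ha.dvd_of_dvd_mul_left h3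
    obtain ⟨k, hk⟩ := h4
    have h5 : k = 0 := by
      by_contra hne
      rcases lt_or_gt_of_ne hne with h | h
      · have : (2 ^ K : ℤ) * k ≤ 2 ^ K * (-1) := mul_le_mul_of_nonneg_left (by omega) hM.le
        linarith [hx.1.1, hx.1.2, hy.1.1, hy.1.2]
      · have : (2 ^ K : ℤ) * 1 ≤ 2 ^ K * k := mul_le_mul_of_nonneg_left (by omega) hM.le
        linarith [hx.1.1, hx.1.2, hy.1.1, hy.1.2]
    rw [h5, mul_zero] at hk
    linarith

open Classical in
lemma cnt_succ (K : ℕ) (s : ℕ × ℤ) (hs : s ≠ (0, 0)) :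
    cnt (K + 1) s ≤ cnt K (nx s false) + cnt K (nx s true) := by
  have hsplit : ((Finset.Ico (0 : ℤ) (2 ^ (K + 1))).filter (fun w => ¬ ab (K + 1) s w)) ⊆
      (((Finset.Ico (0 : ℤ) (2 ^ K)).filter (fun x => ¬ ab (K + 1) s (2 * x))).image (fun x => 2 * x)) ∪
      (((Finset.Ico (0 : ℤ) (2 ^ K)).filter (fun x => ¬ ab (K + 1) s (2 * x + 1))).image (fun x => 2 * x + 1)) := by
    intro w hw
    rw [Finset.mem_filter, Finset.mem_Ico, pow_succ] at hw
    rw [Finset.mem_union, Finset.mem_image, Finset.mem_image]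
    rcases Int.even_or_odd w with ⟨x, hx⟩ | ⟨x, hx⟩
    · left
      refine ⟨x, ?_, by omega⟩
      rw [Finset.mem_filter, Finset.mem_Ico]
      have hx' : w = 2 * x := by omega
      refine ⟨⟨by omega, by omega⟩, ?_⟩
      rw [← hx']; exact hw.2
    · right
      refine ⟨x, ?_, hx.symm⟩
      rw [Finset.mem_filter, Finset.mem_Ico]
      refine ⟨⟨by omega, by omega⟩, ?_⟩
      rw [← hx]; exact hw.2
  have h1 := Finset.card_le_card hsplit
  have h2 := h1.trans (Finset.card_union_le _ _)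
  have h3 := Finset.card_image_le (s := (Finset.Ico (0 : ℤ) (2 ^ K)).filter (fun x => ¬ ab (K + 1) s (2 * x)))
    (f := fun x => 2 * x)
  have h4 := Finset.card_image_le (s := (Finset.Ico (0 : ℤ) (2 ^ K)).filter (fun x => ¬ ab (K + 1) s (2 * x + 1)))
    (f := fun x => 2 * x + 1)
  have h5 : ((Finset.Ico (0 : ℤ) (2 ^ K)).filter (fun x => ¬ ab (K + 1) s (2 * x))).card = cnt K (nx s false) := by
    unfold cnt
    congr 1
    apply Finset.filter_congr
    intro x _
    rw [ab_succ_even K s hs]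
  have hper : ∀ w t, (¬ ab K (nx s true) (w + 2 ^ K * t)) ↔ ¬ ab K (nx s true) w := by
    intro w t; rw [ab_periodic]
  have h6 : ((Finset.Ico (0 : ℤ) (2 ^ K)).filter (fun x => ¬ ab (K + 1) s (2 * x + 1))).card ≤ cnt K (nx s true) := by
    by_cases hc : s.1 = 0 ∧ ¬ Even s.2
    · have := card_affine K 1 ((s.2 + 1) / 2) isCoprime_one_right (fun w => ¬ ab K (nx s true) w) hper
      have e : cnt K (nx s true) = ((Finset.Ico (0 : ℤ) (2 ^ K)).filter (fun w => ¬ ab K (nx s true) w)).card := by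
        unfold cnt; congr
      rw [e]
      refine le_trans (le_of_eq ?_) (le_trans this (le_of_eq ?_))
      · apply congrArg Finset.card
        ext x
        rw [Finset.mem_filter, Finset.mem_filter, ab_succ_odd K s hs, if_pos hc, one_mul]
      · congr
    · have hcop : IsCoprime (2 ^ K : ℤ) 3 := IsCoprime.pow_left (by norm_num)
      have := card_affine K 3 2 hcop (fun w => ¬ ab K (nx s true) w) hper
      have e : cnt K (nx s true) = ((Finset.Ico (0 : ℤ) (2 ^ K)).filter (fun w => ¬ ab K (nx s true) w)).card := by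
        unfold cnt; congr
      rw [e]
      refine le_trans (le_of_eq ?_) (le_trans this (le_of_eq ?_))
      · apply congrArg Finset.card
        ext x
        rw [Finset.mem_filter, Finset.mem_filter, ab_succ_odd K s hs, if_neg hc]
      · congr
  unfold cnt at *
  omega

open Classical in
lemma cnt_le (K : ℕ) : ∀ s, (cnt K s : ℝ) ≤ 2 ^ K * qK K s := by
  induction K with
  | zero =>
    intro s
    by_cases hs : s = (0, 0)
    · subst hs; simp [cnt, ab, qK]
    · simp [cnt, ab, qK, hs]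
  | succ K ih =>
    intro s
    by_cases hs : s = (0, 0)
    · subst hs
      have : cnt (K + 1) (0, 0) = 0 := by
        unfold cnt
        rw [Finset.card_eq_zero, Finset.filter_eq_empty_iff]
        intro w _ h
        exact h (ab_merged _ _)
      rw [this, qK_zero_state]; simp
    · have h1 := cnt_succ K s hs
      have h1' : (cnt (K + 1) s : ℝ) ≤ cnt K (nx s false) + cnt K (nx s true) := by exact_mod_cast h1
      have h2 := ih (nx s false)
      have h3 := ih (nx s true)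
      have e : qK (K + 1) s = (qK K (nx s false) + qK K (nx s true)) / 2 := by rw [qK, if_neg hs]
      rw [e, pow_succ]
      linarith

lemma C_even (x : ℕ) (hx : x % 2 = 0) : C x = x / 2 := by unfold C; rw [if_neg (by omega)]
lemma C_odd (x : ℕ) (hx : x % 2 = 1) : C x = 3 * x + 1 := by unfold C; rw [if_pos hx]
lemma C2_odd (x : ℕ) (hx : x % 2 = 1) : C (C x) = (3 * x + 1) / 2 := by
  rw [C_odd x hx, C_even _ (by omega)]

/-- `w` reaches without meeting `1` in between -/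
def Safe (j w : ℕ) : Prop := ∀ i < j, C^[i] w ≠ 1

lemma safe_even (j w : ℕ) (hw : w ≠ 1) (h0 : w % 2 = 0) (h : Safe j (w / 2)) : Safe (j + 1) w := by
  intro i hi
  cases i with
  | zero => simpa using hw
  | succ i => rw [Function.iterate_succ_apply, C_even w h0]; exact h i (by omega)

lemma safe_odd (j w : ℕ) (hw : w ≠ 1) (h0 : w % 2 = 1) (h : Safe j ((3 * w + 1) / 2)) : Safe (j + 2) w := by
  intro i hi
  match i with
  | 0 => simpa using hw
  | 1 => rw [Function.iterate_one, C_odd w h0]; omega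
  | i + 2 => rw [Function.iterate_succ_apply, Function.iterate_succ_apply, C2_odd w h0]; exact h i (by omega)

lemma iter_even (j w : ℕ) (h0 : w % 2 = 0) : C^[j + 1] w = C^[j] (w / 2) := by
  rw [Function.iterate_succ_apply, C_even w h0]

lemma iter_odd (j w : ℕ) (h0 : w % 2 = 1) : C^[j + 2] w = C^[j] ((3 * w + 1) / 2) := by
  rw [Function.iterate_succ_apply, Function.iterate_succ_apply, C2_odd w h0]

lemma even_cast_iff (w : ℕ) : Even (w : ℤ) ↔ w % 2 = 0 := by
  rw [Int.even_iff]; omega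

lemma sound (K : ℕ) : ∀ (h : ℕ) (c : ℤ) (w o : ℕ), (o : ℤ) = 3 ^ h * w + c → 2 ^ (K + 1) ≤ w →
    2 ^ (K + 1) ≤ o → ab K (h, c) w → ∃ j, C^[j + h] w = C^[j] o ∧ Safe (j + h) w ∧ Safe j o := by
  induction K with
  | zero =>
    intro h c w o ho _ _ hab
    have hs : ((h, c) : ℕ × ℤ) = (0, 0) := hab
    obtain ⟨rfl, rfl⟩ := Prod.mk.injEq .. ▸ hs
    have : o = w := by
      have : (o : ℤ) = w := by rw [ho]; ring
      exact_mod_cast this
    subst this
    exact ⟨0, rfl, fun i hi => absurd hi (by omega), fun i hi => absurd hi (by omega)⟩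
  | succ K ih =>
    intro h c w o ho hw hoo hab
    by_cases hs : ((h, c) : ℕ × ℤ) = (0, 0)
    · obtain ⟨rfl, rfl⟩ := Prod.mk.injEq .. ▸ hs
      have : o = w := by
        have : (o : ℤ) = w := by rw [ho]; ring
        exact_mod_cast this
      subst this
      exact ⟨0, rfl, fun i hi => absurd hi (by omega), fun i hi => absurd hi (by omega)⟩
    have hp : 2 ^ (K + 1 + 1) = 2 * 2 ^ (K + 1) := by ring
    have hp1 : 0 < 2 ^ (K + 1) := by positivity
    have hw1 : w ≠ 1 := by omega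
    have ho1 : o ≠ 1 := by omega
    have hw2 : 2 ^ (K + 1) ≤ w / 2 := by omega
    have ho2 : 2 ^ (K + 1) ≤ o / 2 := by omega
    have hw3 : 2 ^ (K + 1) ≤ (3 * w + 1) / 2 := by omega
    have ho3 : 2 ^ (K + 1) ≤ (3 * o + 1) / 2 := by omega
    have hab' : ab K (nx (h, c) (decide (¬ Even (w : ℤ)))) (nw (h, c) w) := by
      rcases hab with h1 | h1
      · exact absurd h1 hs
      · exact h1
    have h3odd : (3 ^ h * (w : ℤ)) % 2 = (w : ℤ) % 2 := by
      have : Odd ((3 : ℤ) ^ h) := Odd.pow (by decide)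
      obtain ⟨k, hk⟩ := this
      rw [hk, Int.mul_emod]; 
      have : (2 * k + 1) % 2 = 1 := by omega
      rw [this]; omega
    rcases Nat.even_or_odd w with hwe | hwo
    · -- w even
      have hw0 : w % 2 = 0 := Nat.even_iff.mp hwe
      have hwE : Even (w : ℤ) := (even_cast_iff w).mpr hw0
      have e1 : decide (¬ Even (w : ℤ)) = false := by simp [hwE]
      have e2 : nw (h, c) w = ((w / 2 : ℕ) : ℤ) := by
        unfold nw; rw [if_pos hwE]; push_cast; rfl
      rw [e1, e2] at hab'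
      obtain ⟨x, hx⟩ : ∃ x, w = 2 * x := ⟨w / 2, by omega⟩
      have hxw : w / 2 = x := by omega
      by_cases hc : Even c
      · have hc0 := Int.even_iff.mp hc
        have ho0 : o % 2 = 0 := by omega
        obtain ⟨y, hy⟩ : ∃ y, o = 2 * y := ⟨o / 2, by omega⟩
        have hyo : o / 2 = y := by omega
        have e3 : nx (h, c) false = (h, c / 2) := by
          rcases h with _ | h
          · exact nx_even_zero_false c hc
          · exact nx_even_succ_false h c hc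
        rw [e3] at hab'
        have ho' : ((o / 2 : ℕ) : ℤ) = 3 ^ h * ((w / 2 : ℕ) : ℤ) + c / 2 := by
          rw [hxw, hyo]
          obtain ⟨z, hz⟩ : ∃ z, c = 2 * z := ⟨c / 2, by omega⟩
          rw [hz, Int.mul_ediv_cancel_left _ (by norm_num)]
          have : (2 : ℤ) * y = 2 * (3 ^ h * x + z) := by
            have := ho; rw [hx, hy, hz] at this; push_cast at this; linarith
          linarith
        obtain ⟨j, h1, h2, h3⟩ := ih h (c / 2) (w / 2) (o / 2) ho' hw2 ho2 hab'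
        refine ⟨j + 1, ?_, ?_, ?_⟩
        · rw [show j + 1 + h = (j + h) + 1 by ring, iter_even _ w hw0, iter_even _ o ho0]; exact h1
        · rw [show j + 1 + h = (j + h) + 1 by ring]; exact safe_even _ w hw1 hw0 h2
        · exact safe_even _ o ho1 ho0 h3
      · have hc0 := Int.not_even_iff.mp hc
        have ho0 : o % 2 = 1 := by omega
        have e3 : nx (h, c) false = (h + 1, (3 * c + 1) / 2) := by
          rcases h with _ | h
          · exact nx_odd_zero_false c hc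
          · exact nx_odd_succ_false h c hc
        rw [e3] at hab'
        have ho' : (((3 * o + 1) / 2 : ℕ) : ℤ) = 3 ^ (h + 1) * ((w / 2 : ℕ) : ℤ) + (3 * c + 1) / 2 := by
          rw [hxw]
          obtain ⟨y, hy⟩ : ∃ y, 3 * o + 1 = 2 * y := ⟨(3 * o + 1) / 2, by omega⟩
          have hyo : (3 * o + 1) / 2 = y := by omega
          rw [hyo]
          obtain ⟨z, hz⟩ : ∃ z, 3 * c + 1 = 2 * z := ⟨(3 * c + 1) / 2, by omega⟩
          rw [hz, Int.mul_ediv_cancel_left _ (by norm_num)]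
          have hy' : 3 * (o : ℤ) + 1 = 2 * y := by exact_mod_cast hy
          have : (2 : ℤ) * y = 2 * (3 ^ (h + 1) * x + z) := by
            rw [← hy', ho, hx, pow_succ]; push_cast; linarith
          linarith
        obtain ⟨j, h1, h2, h3⟩ := ih (h + 1) ((3 * c + 1) / 2) (w / 2) ((3 * o + 1) / 2) ho' hw2 ho3 hab'
        refine ⟨j + 2, ?_, ?_, ?_⟩
        · rw [show j + 2 + h = (j + (h + 1)) + 1 by ring, iter_even _ w hw0, iter_odd _ o ho0]; exact h1
        · rw [show j + 2 + h = (j + (h + 1)) + 1 by ring]; exact safe_even _ w hw1 hw0 h2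
        · exact safe_odd _ o ho1 ho0 h3
    · -- w odd
      have hw0 : w % 2 = 1 := Nat.odd_iff.mp hwo
      have hwE : ¬ Even (w : ℤ) := by rw [even_cast_iff]; omega
      have e1 : decide (¬ Even (w : ℤ)) = true := decide_eq_true hwE
      obtain ⟨x, hx⟩ : ∃ x, 3 * w + 1 = 2 * x := ⟨(3 * w + 1) / 2, by omega⟩
      have hxw : (3 * w + 1) / 2 = x := by omega
      have hx' : 3 * (w : ℤ) + 1 = 2 * x := by exact_mod_cast hx
      rw [e1] at hab'
      by_cases hc : Even c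
      · have hc0 := Int.even_iff.mp hc
        have ho0 : o % 2 = 1 := by omega
        have e2 : nw (h, c) w = (((3 * w + 1) / 2 : ℕ) : ℤ) := by
          unfold nw; rw [if_neg hwE, if_neg (by simp [hc])]; push_cast; rfl
        rw [e2] at hab'
        obtain ⟨y, hy⟩ : ∃ y, 3 * o + 1 = 2 * y := ⟨(3 * o + 1) / 2, by omega⟩
        have hyo : (3 * o + 1) / 2 = y := by omega
        have hy' : 3 * (o : ℤ) + 1 = 2 * y := by exact_mod_cast hy
        have e3 : nx (h, c) true = (h, (3 * c + 1 - 3 ^ h) / 2) := by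
          rcases h with _ | h
          · rw [nx_even_zero_true c hc]; norm_num
          · exact nx_even_succ_true h c hc
        rw [e3] at hab'
        have hmod : (3 * c + 1 - 3 ^ h) % 2 = 0 := by
          have : Odd ((3 : ℤ) ^ h) := Odd.pow (by decide)
          obtain ⟨k, hk⟩ := this
          omega
        have ho' : (((3 * o + 1) / 2 : ℕ) : ℤ) = 3 ^ h * (((3 * w + 1) / 2 : ℕ) : ℤ) + (3 * c + 1 - 3 ^ h) / 2 := by
          rw [hxw, hyo]
          obtain ⟨z, hz⟩ : ∃ z, 3 * c + 1 - 3 ^ h = 2 * z := ⟨(3 * c + 1 - 3 ^ h) / 2, by omega⟩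
          rw [hz, Int.mul_ediv_cancel_left _ (by norm_num)]
          have : (2 : ℤ) * y = 2 * (3 ^ h * x + z) := by
            have e : (2 : ℤ) * (3 ^ h * x + z) = 3 ^ h * (2 * x) + 2 * z := by ring
            rw [e, ← hx', ← hz, ← hy', ho]; ring
          linarith
        obtain ⟨j, h1, h2, h3⟩ := ih h _ _ _ ho' hw3 ho3 hab'
        refine ⟨j + 2, ?_, ?_, ?_⟩
        · rw [show j + 2 + h = (j + h) + 2 by ring, iter_odd _ w hw0, iter_odd _ o ho0]; exact h1
        · rw [show j + 2 + h = (j + h) + 2 by ring]; exact safe_odd _ w hw1 hw0 h2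
        · exact safe_odd _ o ho1 ho0 h3
      · have hc0 := Int.not_even_iff.mp hc
        have ho0 : o % 2 = 0 := by omega
        obtain ⟨y, hy⟩ : ∃ y, o = 2 * y := ⟨o / 2, by omega⟩
        have hyo : o / 2 = y := by omega
        have hy' : (o : ℤ) = 2 * y := by exact_mod_cast hy
        rcases h with _ | h
        · -- swap
          have e2 : nw (0, c) w = ((o / 2 : ℕ) : ℤ) := by
            unfold nw; rw [if_neg hwE, if_pos ⟨rfl, hc⟩, hyo]
            have : (w : ℤ) + c = 2 * y := by rw [← hy', ho]; ring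
            change ((w : ℤ) + c) / 2 = y
            rw [this]; exact Int.mul_ediv_cancel_left _ (by norm_num)
          rw [e2, nx_odd_zero_true c hc] at hab'
          have ho' : (((3 * w + 1) / 2 : ℕ) : ℤ) = 3 ^ 1 * ((o / 2 : ℕ) : ℤ) + (1 - 3 * c) / 2 := by
            rw [hxw, hyo]
            obtain ⟨z, hz⟩ : ∃ z, 1 - 3 * c = 2 * z := ⟨(1 - 3 * c) / 2, by omega⟩
            rw [hz, Int.mul_ediv_cancel_left _ (by norm_num)]
            have h5 : (2 : ℤ) * y = w + c := by rw [← hy', ho]; ring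
            linarith
          obtain ⟨j, h1, h2, h3⟩ := ih 1 _ _ _ ho' ho2 hw3 hab'
          refine ⟨j + 2, ?_, ?_, ?_⟩
          · rw [show j + 2 + 0 = j + 2 by ring, iter_odd _ w hw0, show j + 2 = (j + 1) + 1 by ring,
              iter_even _ o ho0]; exact h1.symm
          · exact safe_odd _ w hw1 hw0 h3
          · rw [show j + 2 = (j + 1) + 1 by ring]; exact safe_even _ o ho1 ho0 h2
        · have e2 : nw (h + 1, c) w = (((3 * w + 1) / 2 : ℕ) : ℤ) := by
            unfold nw; rw [if_neg hwE, if_neg (by simp)]; push_cast; rfl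
          rw [e2, nx_odd_succ_true h c hc] at hab'
          have hmod : (c - 3 ^ h) % 2 = 0 := by
            have : Odd ((3 : ℤ) ^ h) := Odd.pow (by decide)
            obtain ⟨k, hk⟩ := this
            omega
          have ho' : ((o / 2 : ℕ) : ℤ) = 3 ^ h * (((3 * w + 1) / 2 : ℕ) : ℤ) + (c - 3 ^ h) / 2 := by
            rw [hxw, hyo]
            obtain ⟨z, hz⟩ : ∃ z, c - 3 ^ h = 2 * z := ⟨(c - 3 ^ h) / 2, by omega⟩
            rw [hz, Int.mul_ediv_cancel_left _ (by norm_num)]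
            have : (2 : ℤ) * y = 2 * (3 ^ h * x + z) := by
              have e : (2 : ℤ) * (3 ^ h * x + z) = 3 ^ h * (2 * x) + 2 * z := by ring
              rw [e, ← hx', ← hz, ← hy', ho]; ring
            linarith
          obtain ⟨j, h1, h2, h3⟩ := ih h _ _ _ ho' hw3 ho2 hab'
          refine ⟨j + 1, ?_, ?_, ?_⟩
          · rw [show j + 1 + (h + 1) = (j + h) + 2 by ring, iter_odd _ w hw0, iter_even _ o ho0]; exact h1
          · rw [show j + 1 + (h + 1) = (j + h) + 2 by ring]; exact safe_odd _ w hw1 hw0 h2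
          · exact safe_even _ o ho1 ho0 h3

lemma meets_of_ab (K n : ℕ) (hn : 2 ^ (K + 1) ≤ n) (hab : ab K (0, 1) n) : Meets n (n + 1) := by
  obtain ⟨j, h1, h2, h3⟩ := sound K 0 1 n (n + 1) (by push_cast; ring) hn (by omega) hab
  exact ⟨j, by simpa using h1, fun i hi => ⟨h2 i (by omega), h3 i hi⟩⟩

open Classical in
lemma count_bound (K N : ℕ) :
    ({n : ℕ | 1 ≤ n ∧ n ≤ N ∧ ¬ Meets n (n + 1)}.ncard : ℝ)
      ≤ 2 ^ (K + 1) + (N / 2 ^ K + 1) * (2 ^ K * qK K (0, 1)) := by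
  set B : Finset ℤ := (Finset.Ico (0 : ℤ) (2 ^ K)).filter (fun w => ¬ ab K (0, 1) w) with hB
  have hBc : B.card = cnt K (0, 1) := by rw [hB]; unfold cnt; congr
  set T : Finset ℕ := ((Finset.range (N / 2 ^ K + 1)) ×ˢ B).image (fun p => p.1 * 2 ^ K + p.2.toNat) with hT
  have hsub : {n : ℕ | 1 ≤ n ∧ n ≤ N ∧ ¬ Meets n (n + 1)} ⊆ ↑(Finset.range (2 ^ (K + 1)) ∪ T) := by
    rintro n ⟨_, hnN, hn⟩
    rw [Finset.mem_coe, Finset.mem_union]
    by_cases hsmall : n < 2 ^ (K + 1)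
    · left; exact Finset.mem_range.mpr hsmall
    · right
      have hnab : ¬ ab K (0, 1) n := fun h => hn (meets_of_ab K n (not_lt.mp hsmall) h)
      rw [hT, Finset.mem_image]
      refine ⟨(n / 2 ^ K, ((n % 2 ^ K : ℕ) : ℤ)), ?_, ?_⟩
      · rw [Finset.mem_product]
        constructor
        · rw [Finset.mem_range]
          have : n / 2 ^ K ≤ N / 2 ^ K := Nat.div_le_div_right hnN
          change n / 2 ^ K < N / 2 ^ K + 1
          omega
        · rw [hB, Finset.mem_filter, Finset.mem_Ico]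
          have hpos : 0 < 2 ^ K := by positivity
          have hlt : n % 2 ^ K < 2 ^ K := Nat.mod_lt _ hpos
          have hlt' : ((n % 2 ^ K : ℕ) : ℤ) < 2 ^ K := by exact_mod_cast hlt
          refine ⟨⟨Int.natCast_nonneg _, hlt'⟩, ?_⟩
          have e : (n : ℤ) = ((n % 2 ^ K : ℕ) : ℤ) + 2 ^ K * ((n / 2 ^ K : ℕ) : ℤ) := by
            exact_mod_cast (Nat.mod_add_div n (2 ^ K)).symm
          rw [e, ab_periodic] at hnab
          exact hnab
      · change n / 2 ^ K * 2 ^ K + ((n % 2 ^ K : ℕ) : ℤ).toNat = n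
        rw [Int.toNat_natCast]
        exact Nat.div_add_mod' n (2 ^ K)
  have h1 : {n : ℕ | 1 ≤ n ∧ n ≤ N ∧ ¬ Meets n (n + 1)}.ncard ≤ 2 ^ (K + 1) + (N / 2 ^ K + 1) * cnt K (0, 1) := by
    calc {n : ℕ | 1 ≤ n ∧ n ≤ N ∧ ¬ Meets n (n + 1)}.ncard
        ≤ (↑(Finset.range (2 ^ (K + 1)) ∪ T) : Set ℕ).ncard :=
          Set.ncard_le_ncard hsub (Finset.finite_toSet _)
      _ = (Finset.range (2 ^ (K + 1)) ∪ T).card := Set.ncard_coe_finset _
      _ ≤ (Finset.range (2 ^ (K + 1))).card + T.card := Finset.card_union_le _ _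
      _ ≤ 2 ^ (K + 1) + (N / 2 ^ K + 1) * cnt K (0, 1) := by
          rw [Finset.card_range]
          have h2 : T.card ≤ ((Finset.range (N / 2 ^ K + 1)) ×ˢ B).card := Finset.card_image_le
          rw [Finset.card_product, Finset.card_range, hBc] at h2
          omega
  have h2 : ((N / 2 ^ K : ℕ) : ℝ) ≤ (N : ℝ) / 2 ^ K := by
    have := @Nat.cast_div_le ℝ _ _ _ N (2 ^ K)
    simpa using this
  have h3 := cnt_le K (0, 1)
  have h4 : (0 : ℝ) ≤ cnt K (0, 1) := Nat.cast_nonneg _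
  have h5 : ({n : ℕ | 1 ≤ n ∧ n ≤ N ∧ ¬ Meets n (n + 1)}.ncard : ℝ)
      ≤ 2 ^ (K + 1) + (((N / 2 ^ K : ℕ) : ℝ) + 1) * cnt K (0, 1) := by exact_mod_cast h1
  have h6 : (((N / 2 ^ K : ℕ) : ℝ) + 1) * cnt K (0, 1) ≤ (N / 2 ^ K + 1) * (2 ^ K * qK K (0, 1)) := by
    apply mul_le_mul (by linarith) h3 h4 (by positivity)
  linarith

lemma same_height (n m k : ℕ) (h : Meets n m) (hk : HeightIs n k) : HeightIs m k := by
  obtain ⟨j, hj, hs⟩ := h
  obtain ⟨h1, h2⟩ := hk
  have hjk : j ≤ k := by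
    by_contra hcon
    exact (hs k (by omega)).1 h1
  have key : ∀ i, j ≤ i → C^[i] n = C^[i] m := by
    intro i hi
    obtain ⟨d, rfl⟩ := Nat.exists_eq_add_of_le hi
    rw [add_comm, Function.iterate_add_apply, Function.iterate_add_apply, hj]
  refine ⟨by rw [← key k hjk]; exact h1, ?_⟩
  intro i hi
  by_cases hij : i < j
  · exact (hs i hij).2
  · rw [← key i (by omega)]; exact h2 i hi

theorem density_zero : Filter.Tendsto
    (fun N : ℕ => ({n : ℕ | 1 ≤ n ∧ n ≤ N ∧ ¬ Meets n (n + 1)}.ncard : ℝ) / N) Filter.atTop (nhds 0) := by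
  rw [Metric.tendsto_atTop]
  intro ε hε
  have h1 := qK_tendsto (0, 1)
  rw [Metric.tendsto_atTop] at h1
  obtain ⟨K, hK⟩ := h1 (ε / 2) (by positivity)
  have hK' := hK K le_rfl
  rw [Real.dist_eq, sub_zero, abs_of_nonneg (qK_nonneg _ _)] at hK'
  obtain ⟨N0, hN0⟩ := exists_nat_gt ((2 ^ (K + 1) + 2 ^ K) / (ε / 2) : ℝ)
  refine ⟨N0 + 1, fun N hN => ?_⟩
  have hNpos : (0 : ℝ) < N := by
    have : 0 < N := by omega
    exact_mod_cast this
  rw [Real.dist_eq, sub_zero, abs_of_nonneg (by positivity), div_lt_iff₀ hNpos]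
  have h2 := count_bound K N
  have h3 : (2 : ℝ) ^ (K + 1) + 2 ^ K < ε / 2 * N := by
    have h4 : ((2 : ℝ) ^ (K + 1) + 2 ^ K) / (ε / 2) < N := by
      refine hN0.trans_le ?_
      exact_mod_cast (by omega : N0 ≤ N)
    rw [div_lt_iff₀ (by positivity)] at h4
    linarith
  have h5 : ((N : ℝ) / 2 ^ K + 1) * (2 ^ K * qK K (0, 1)) = N * qK K (0, 1) + 2 ^ K * qK K (0, 1) := by
    have : (2 : ℝ) ^ K ≠ 0 := by positivity
    field_simp
  have h6 : (2 : ℝ) ^ K * qK K (0, 1) ≤ 2 ^ K * 1 :=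
    mul_le_mul_of_nonneg_left (qK_le_one _ _) (by positivity)
  have h7 : (N : ℝ) * qK K (0, 1) ≤ N * (ε / 2) := mul_le_mul_of_nonneg_left hK'.le hNpos.le
  rw [h5] at h2
  linarith

theorem liminf_eq :
    Filter.liminf (fun N : ℕ => ({n : ℕ | 1 ≤ n ∧ n ≤ N ∧ Paired n}.ncard : ℝ) / N) Filter.atTop =
    Filter.liminf (fun N : ℕ => ({n : ℕ | 1 ≤ n ∧ n ≤ N ∧ FiniteHeight n}.ncard : ℝ) / N) Filter.atTop := by
  have hfin : ∀ (Q : ℕ → Prop) (N : ℕ), {n : ℕ | 1 ≤ n ∧ n ≤ N ∧ Q n}.Finite := by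
    intro Q N
    exact (Set.finite_Icc 1 N).subset (fun n hn => ⟨hn.1, hn.2.1⟩)
  have hbd : ∀ (Q : ℕ → Prop) (N : ℕ), ({n : ℕ | 1 ≤ n ∧ n ≤ N ∧ Q n}.ncard : ℝ) / N ≤ 1 := by
    intro Q N
    apply div_le_one_of_le₀ _ (Nat.cast_nonneg _)
    have : {n : ℕ | 1 ≤ n ∧ n ≤ N ∧ Q n}.ncard ≤ (Set.Icc 1 N).ncard :=
      Set.ncard_le_ncard (fun n hn => ⟨hn.1, hn.2.1⟩) (Set.finite_Icc 1 N)
    have h2 : (Set.Icc 1 N).ncard = N := by
      rw [← Finset.coe_Icc, Set.ncard_coe_finset, Nat.card_Icc]; omega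
    rw [h2] at this
    exact_mod_cast this
  have h0 : ∀ (Q : ℕ → Prop) (N : ℕ), 0 ≤ ({n : ℕ | 1 ≤ n ∧ n ≤ N ∧ Q n}.ncard : ℝ) / N := by
    intro Q N; positivity
  have hbb : ∀ (Q : ℕ → Prop), Filter.IsBoundedUnder (· ≥ ·) Filter.atTop
      (fun N : ℕ => ({n : ℕ | 1 ≤ n ∧ n ≤ N ∧ Q n}.ncard : ℝ) / N) :=
    fun Q => Filter.isBoundedUnder_of ⟨0, fun N => h0 Q N⟩
  have hcb : ∀ (Q : ℕ → Prop), Filter.IsCoboundedUnder (· ≥ ·) Filter.atTop
      (fun N : ℕ => ({n : ℕ | 1 ≤ n ∧ n ≤ N ∧ Q n}.ncard : ℝ) / N) :=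
    fun Q => (Filter.isBoundedUnder_of ⟨1, fun N => hbd Q N⟩).isCoboundedUnder_ge
  apply le_antisymm
  · apply Filter.liminf_le_liminf _ (hbb _) (hcb _)
    apply Filter.Eventually.of_forall
    intro N
    apply div_le_div_of_nonneg_right _ (Nat.cast_nonneg _)
    have : {n : ℕ | 1 ≤ n ∧ n ≤ N ∧ Paired n}.ncard ≤ {n : ℕ | 1 ≤ n ∧ n ≤ N ∧ FiniteHeight n}.ncard :=
      Set.ncard_le_ncard (fun n hn => ⟨hn.1, hn.2.1, by
        obtain ⟨k, hk, _⟩ := hn.2.2; exact ⟨k, hk⟩⟩) (hfin _ N)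
    exact_mod_cast this
  · apply le_of_forall_pos_le_add
    intro ε hε
    rw [← liminf_add_const _ _ _ (hcb _) (hbb _)]
    refine Filter.liminf_le_liminf ?_ (hbb _) ?_
    rotate_left
    · refine (Filter.isBoundedUnder_of ⟨1 + ε, fun N => ?_⟩).isCoboundedUnder_ge
      have := hbd Paired N
      linarith
    · have h1 := density_zero
      rw [Metric.tendsto_atTop] at h1
      obtain ⟨N0, hN0⟩ := h1 ε hε
      filter_upwards [Filter.eventually_ge_atTop N0] with N hN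
      have h2 := hN0 N hN
      rw [Real.dist_eq, sub_zero, abs_of_nonneg (by positivity)] at h2
      have hsub : {n : ℕ | 1 ≤ n ∧ n ≤ N ∧ FiniteHeight n} ⊆
          {n : ℕ | 1 ≤ n ∧ n ≤ N ∧ Paired n} ∪ {n : ℕ | 1 ≤ n ∧ n ≤ N ∧ ¬ Meets n (n + 1)} := by
        rintro n ⟨a, b, k, hk⟩
        by_cases hm : Meets n (n + 1)
        · left; exact ⟨a, b, k, hk, Or.inr (same_height n (n + 1) k hm hk)⟩
        · right; exact ⟨a, b, hm⟩
      have h3 : {n : ℕ | 1 ≤ n ∧ n ≤ N ∧ FiniteHeight n}.ncard ≤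
          {n : ℕ | 1 ≤ n ∧ n ≤ N ∧ Paired n}.ncard + {n : ℕ | 1 ≤ n ∧ n ≤ N ∧ ¬ Meets n (n + 1)}.ncard :=
        (Set.ncard_le_ncard hsub ((hfin _ N).union (hfin _ N))).trans (Set.ncard_union_le _ _)
      have h4 : ({n : ℕ | 1 ≤ n ∧ n ≤ N ∧ FiniteHeight n}.ncard : ℝ) ≤
          {n : ℕ | 1 ≤ n ∧ n ≤ N ∧ Paired n}.ncard + {n : ℕ | 1 ≤ n ∧ n ≤ N ∧ ¬ Meets n (n + 1)}.ncard := by
        exact_mod_cast h3
      have h5 := div_le_div_of_nonneg_right h4 (Nat.cast_nonneg (α := ℝ) N)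
      rw [add_div] at h5
      linarith

end Pool.Agent.LibCollatzPairs
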